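import Pool.Agent.Helper9.EP.Rest

/-!
# WINV: the Weyl inverse theorem
-/

set_option autoImplicit false

open Polynomial Finset

namespace Pool.Agent.Helper9.WI

open Pool.Agent.Helper20.EP (ee)

/-- translation of rational approximations -/
lemma translate (D q : ℕ) (g : ℝ[X]) (hg : g.natDegree ≤ D) (N s : ℕ) (hN : 1 ≤ N) (hs : s ≤ N)
    (B : ℝ) (hB : 0 ≤ B) (β : ℕ → ℤ)
    (hβ : ∀ i : ℕ, 1 ≤ i → i ≤ D → |q * (taylor (s : ℝ) g).coeff i - β i| ≤ B / (N : ℝ) ^ i)
    (j : ℕ) (hj : 1 ≤ j) :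
    ∃ b : ℤ, |q * g.coeff j - b| ≤ (D + 1) * 2 ^ D * B / (N : ℝ) ^ j := by
  have hN0 : (0 : ℝ) < N := by exact_mod_cast hN
  set T : ℝ[X] := taylor (s : ℝ) g with hT
  have hTd : T.natDegree ≤ D := by
    rw [hT, natDegree_taylor]
    exact hg
  have hgT : g = taylor (-(s : ℝ)) T := by
    rw [hT, taylor_taylor, neg_add_cancel, taylor_zero]
  refine ⟨∑ i ∈ range (D + 1), β i * (i.choose j : ℤ) * (-(s : ℤ)) ^ (i - j), ?_⟩
  have h1 : q * g.coeff j - ((∑ i ∈ range (D + 1), β i * (i.choose j : ℤ) * (-(s : ℤ)) ^ (i - j) : ℤ) : ℝ)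
      = ∑ i ∈ range (D + 1), (q * T.coeff i - β i) * (i.choose j : ℝ) * (-(s : ℝ)) ^ (i - j) := by
    conv_lhs => rw [hgT]
    rw [taylor_coeff_sum _ T D hTd, Finset.mul_sum]
    push_cast
    rw [← Finset.sum_sub_distrib]
    refine Finset.sum_congr rfl fun i _ => ?_
    ring
  rw [h1]
  refine (Finset.abs_sum_le_sum_abs _ _).trans ?_
  have h2 : ∀ i ∈ range (D + 1), |(q * T.coeff i - β i) * (i.choose j : ℝ) * (-(s : ℝ)) ^ (i - j)| ≤
      2 ^ D * B / (N : ℝ) ^ j := by
    intro i hi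
    rw [Finset.mem_range] at hi
    rcases Nat.lt_or_ge i j with hij | hij
    · rw [Nat.choose_eq_zero_of_lt hij]
      simp only [Nat.cast_zero, mul_zero, zero_mul, abs_zero]
      positivity
    · rw [abs_mul, abs_mul, abs_pow, abs_neg, Nat.abs_cast, Nat.abs_cast]
      have h3 := hβ i (by omega) (by omega)
      have h4 : (i.choose j : ℝ) ≤ 2 ^ D := by
        have h5 : i.choose j ≤ 2 ^ i := Nat.choose_le_two_pow i j
        have h6 : (2 : ℕ) ^ i ≤ 2 ^ D := Nat.pow_le_pow_right (by norm_num) (by omega)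
        exact_mod_cast h5.trans h6
      have h7 : (s : ℝ) ^ (i - j) ≤ (N : ℝ) ^ (i - j) := by
        have : (s : ℝ) ≤ N := by exact_mod_cast hs
        gcongr
      have h8 : (N : ℝ) ^ i = (N : ℝ) ^ (i - j) * (N : ℝ) ^ j := by
        rw [← pow_add]
        congr 1
        omega
      calc |(q : ℝ) * T.coeff i - β i| * (i.choose j : ℝ) * (s : ℝ) ^ (i - j)
          ≤ (B / (N : ℝ) ^ i) * 2 ^ D * (N : ℝ) ^ (i - j) := by gcongr
        _ = 2 ^ D * B / (N : ℝ) ^ j := by
          rw [h8]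
          field_simp
  calc ∑ i ∈ range (D + 1), |(q * T.coeff i - β i) * (i.choose j : ℝ) * (-(s : ℝ)) ^ (i - j)|
      ≤ ∑ i ∈ range (D + 1), 2 ^ D * B / (N : ℝ) ^ j := Finset.sum_le_sum h2
    _ = (D + 1) * 2 ^ D * B / (N : ℝ) ^ j := by
      rw [Finset.sum_const, nsmul_eq_mul, Finset.card_range]
      push_cast
      ring

/-- the induction step -/
theorem step (D c : ℕ) (hD : 1 ≤ D) (IH : PW D c) : ∃ C, PW (D + 1) C := by
  set a : ℕ := 15 * c + 5 * D + 14 with ha
  set E : ℕ := 2 * a + D + 7 with hE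
  set C₃ : ℕ := 2 * a + D + 8 with hC₃
  set C₄ : ℕ := a * (D + 1) + 3 * c + C₃ * D with hC₄
  set Cf : ℕ := C₄ + 2 * D + E * (D + 1) with hCf
  refine ⟨Cf, ?_⟩
  intro f hf N hN1 K hK h
  have hK0 : 0 < K := by linarith
  have hK1 : 1 ≤ K := by linarith
  have hmono : ∀ m n : ℕ, m ≤ n → K ^ m ≤ K ^ n := fun m n hmn => pow_le_pow_right₀ hK1 hmn
  have h2K : ∀ n : ℕ, (2 : ℝ) ^ n ≤ K ^ n := two_pow_bound K hK
  have hN0 : (0 : ℝ) < N := by exact_mod_cast hN1
  rcases le_or_gt (K ^ E) N with hNE | hNE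
  swap
  · -- `N` is small
    refine ⟨1, le_rfl, ?_, ?_⟩
    · push_cast
      exact one_le_pow₀ hK1
    · intro j hj1 hj2
      refine ⟨round (f.coeff j), ?_⟩
      rw [Nat.cast_one, one_mul]
      refine (abs_sub_round _).trans ?_
      rw [le_div_iff₀ (by positivity)]
      have h1 : (N : ℝ) ^ j ≤ K ^ Cf := by
        calc (N : ℝ) ^ j ≤ (K ^ E) ^ j := by gcongr
          _ = K ^ (E * j) := by rw [← pow_mul]
          _ ≤ K ^ Cf := by
            refine hmono _ _ ?_
            have : E * j ≤ E * (D + 1) := Nat.mul_le_mul_left E hj2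
            omega
      have h2 : 0 ≤ (N : ℝ) ^ j := by positivity
      linarith
  -- `N` is large
  have hNa : K ^ a ≤ N := (hmono a E (by omega)).trans hNE
  obtain ⟨Q, hQ1, hQ, b, hb⟩ := lead D c hD IH f hf N K hK hNa h
  rw [← ha] at hQ hb
  obtain ⟨s, M, hM1, hsN, hMN, hNM, hsum⟩ := restrict D a f N K hK Q hQ1 hQ b hb hNE h
  rw [← hC₃] at hNM
  have hQ0 : (0 : ℝ) < Q := by exact_mod_cast hQ1
  have hQr : (1 : ℝ) ≤ Q := by exact_mod_cast hQ1
  have hM0 : (0 : ℝ) < M := by exact_mod_cast hM1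
  set g : ℝ[X] := f.erase (D + 1) with hg
  have hgd : g.natDegree ≤ D := by
    rw [natDegree_le_iff_coeff_eq_zero]
    intro n hn
    rw [hg, coeff_erase]
    split_ifs with h1
    · rfl
    · exact coeff_eq_zero_of_natDegree_lt (by omega)
  set T : ℝ[X] := taylor (s : ℝ) g with hT
  have hTd : T.natDegree ≤ D := by
    rw [hT, natDegree_taylor]
    exact hgd
  set G : ℝ[X] := T.comp (C (Q : ℝ) * X) with hG
  have hGc : ∀ i, G.coeff i = T.coeff i * (Q : ℝ) ^ i := fun i => comp_C_mul_X_coeff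
  have hGd : G.natDegree ≤ D := by
    rw [natDegree_le_iff_coeff_eq_zero]
    intro n hn
    rw [hGc, coeff_eq_zero_of_natDegree_lt (lt_of_le_of_lt hTd hn), zero_mul]
  have hGe : ∀ m : ℕ, G.eval (m : ℝ) = g.eval ((s : ℝ) + Q * m) := by
    intro m
    rw [hG, eval_comp, eval_mul, eval_C, eval_X, hT, taylor_eval, add_comm]
  obtain ⟨q, hq1, hq2, hq3⟩ := IH G hGd M hM1 (4 * K) (by linarith) (by
    have : ∀ m ∈ range M, ee (G.eval (m : ℝ)) = ee (g.eval ((s : ℝ) + Q * m)) := fun m _ => by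
      rw [hGe]
    rw [Finset.sum_congr rfl this]
    exact hsum)
  have hq0 : (0 : ℝ) < q := by exact_mod_cast hq1
  have h4K : (4 * K) ^ c ≤ K ^ (3 * c) := by
    rw [pow_mul]
    have : 4 * K ≤ K ^ 3 := by
      calc 4 * K = 2 ^ 2 * K := by norm_num
        _ ≤ K ^ 2 * K := by
          have := h2K 2
          gcongr
        _ = K ^ 3 := by ring
    gcongr
  have hqK : (q : ℝ) ≤ K ^ (3 * c) := hq2.trans h4K
  have hQD : (Q : ℝ) ^ (D + 1) ≤ K ^ (a * (D + 1)) := by
    rw [pow_mul]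
    gcongr
  -- approximations of the coefficients of `T`
  have hβ : ∀ i : ℕ, ∃ β : ℤ, 1 ≤ i → i ≤ D →
      |((q * Q ^ (D + 1) : ℕ) : ℝ) * T.coeff i - β| ≤ K ^ C₄ / (N : ℝ) ^ i := by
    intro i
    by_cases hi : 1 ≤ i ∧ i ≤ D
    swap
    · exact ⟨0, fun h1 h2 => absurd ⟨h1, h2⟩ hi⟩
    obtain ⟨hi1, hi2⟩ := hi
    obtain ⟨β, hβ⟩ := hq3 i hi1 hi2
    refine ⟨(Q : ℤ) ^ (D + 1 - i) * β, fun _ _ => ?_⟩
    have e1 : (Q : ℝ) ^ (D + 1) = (Q : ℝ) ^ (D + 1 - i) * (Q : ℝ) ^ i := by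
      rw [← pow_add]
      congr 1
      omega
    have e2 : ((q * Q ^ (D + 1) : ℕ) : ℝ) * T.coeff i - (((Q : ℤ) ^ (D + 1 - i) * β : ℤ) : ℝ) =
        (Q : ℝ) ^ (D + 1 - i) * (q * G.coeff i - β) := by
      rw [hGc]
      push_cast
      rw [e1]
      ring
    rw [e2, abs_mul, abs_pow, Nat.abs_cast]
    have h1 : (Q : ℝ) ^ (D + 1 - i) ≤ K ^ (a * (D + 1)) := by
      refine le_trans ?_ hQD
      exact pow_le_pow_right₀ hQr (by omega)
    have h2 : (N : ℝ) ^ i ≤ M ^ i * K ^ (C₃ * D) := by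
      calc (N : ℝ) ^ i ≤ (M * K ^ C₃) ^ i := by gcongr
        _ = M ^ i * K ^ (C₃ * i) := by rw [mul_pow, ← pow_mul]
        _ ≤ M ^ i * K ^ (C₃ * D) := by
          have := hmono (C₃ * i) (C₃ * D) (Nat.mul_le_mul_left _ hi2)
          gcongr
    have h3 : (4 * K) ^ c / (M : ℝ) ^ i ≤ K ^ (3 * c) * K ^ (C₃ * D) / (N : ℝ) ^ i := by
      rw [div_le_div_iff₀ (by positivity) (by positivity)]
      calc (4 * K) ^ c * (N : ℝ) ^ i ≤ K ^ (3 * c) * (M ^ i * K ^ (C₃ * D)) := by gcongr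
        _ = K ^ (3 * c) * K ^ (C₃ * D) * M ^ i := by ring
    calc (Q : ℝ) ^ (D + 1 - i) * |(q : ℝ) * G.coeff i - β|
        ≤ K ^ (a * (D + 1)) * (K ^ (3 * c) * K ^ (C₃ * D) / (N : ℝ) ^ i) := by
          have := hβ.trans h3
          gcongr
      _ = K ^ C₄ / (N : ℝ) ^ i := by
          rw [hC₄, pow_add, pow_add]
          ring
  choose β hβ using hβ
  refine ⟨q * Q ^ (D + 1), ?_, ?_, ?_⟩
  · have : 0 < q * Q ^ (D + 1) := by positivity
    exact this
  · push_cast
    calc (q : ℝ) * Q ^ (D + 1) ≤ K ^ (3 * c) * K ^ (a * (D + 1)) := by gcongr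
      _ = K ^ (3 * c + a * (D + 1)) := by rw [← pow_add]
      _ ≤ K ^ Cf := hmono _ _ (by omega)
  · intro j hj1 hj2
    rcases Nat.lt_or_ge D j with hjD | hjD
    · have hj : j = D + 1 := by omega
      subst hj
      refine ⟨q * (Q : ℤ) ^ D * b, ?_⟩
      have e1 : ((q * Q ^ (D + 1) : ℕ) : ℝ) * f.coeff (D + 1) - ((q * (Q : ℤ) ^ D * b : ℤ) : ℝ) =
          q * (Q : ℝ) ^ D * (Q * f.coeff (D + 1) - b) := by
        push_cast
        ring
      rw [e1, abs_mul, abs_mul, abs_pow, Nat.abs_cast, Nat.abs_cast]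
      have h1 : (Q : ℝ) ^ D ≤ K ^ (a * D) := by
        rw [pow_mul]
        gcongr
      calc (q : ℝ) * Q ^ D * |(Q : ℝ) * f.coeff (D + 1) - b|
          ≤ K ^ (3 * c) * K ^ (a * D) * (K ^ a / (N : ℝ) ^ (D + 1)) := by gcongr
        _ = K ^ (3 * c + a * D + a) / (N : ℝ) ^ (D + 1) := by
          rw [pow_add, pow_add]
          ring
        _ ≤ K ^ Cf / (N : ℝ) ^ (D + 1) := by
          have : 3 * c + a * D + a ≤ Cf := by
            have : a * (D + 1) = a * D + a := by ring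
            omega
          have := hmono _ _ this
          gcongr
    · obtain ⟨b', hb'⟩ := translate D (q * Q ^ (D + 1)) g hgd N s hN1 hsN (K ^ C₄) (by positivity) β
        (fun i hi1 hi2 => hβ i hi1 hi2) j hj1
      refine ⟨b', ?_⟩
      have hfg : f.coeff j = g.coeff j := by
        rw [hg, coeff_erase, if_neg (by omega)]
      rw [hfg]
      refine hb'.trans ?_
      refine div_le_div_of_nonneg_right ?_ (by positivity)
      have h1 : ((D : ℝ) + 1) ≤ 2 ^ D := by
        have : D + 1 ≤ 2 ^ D := Nat.lt_two_pow_self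
        exact_mod_cast this
      calc ((D : ℝ) + 1) * 2 ^ D * K ^ C₄ ≤ K ^ D * K ^ D * K ^ C₄ := by
            have := h2K D
            gcongr
            exact h1.trans this
        _ = K ^ (D + D + C₄) := by rw [← pow_add, ← pow_add]
        _ ≤ K ^ Cf := hmono _ _ (by omega)

/-- **The Weyl inverse theorem.** -/
theorem main : Pool.Agent.Helper20.EP.S_WINV := by
  have key : ∀ D : ℕ, ∃ C, PW D C := by
    intro D
    rcases Nat.eq_zero_or_pos D with h0 | h0
    · subst h0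
      refine ⟨0, ?_⟩
      intro f _ N _ K _ _
      exact ⟨1, le_rfl, by simp, fun j h1 h2 => by omega⟩
    · induction D with
      | zero => omega
      | succ D ih =>
        rcases Nat.eq_zero_or_pos D with h1 | h1
        · subst h1
          refine ⟨1, ?_⟩
          intro f hf N hN K hK h
          have hK0 : 0 < K := by linarith
          have hf' : ∀ n : ℕ, f.eval (n : ℝ) = f.coeff 1 * n + f.coeff 0 := by
            intro n
            conv_lhs => rw [eq_X_add_C_of_natDegree_le_one hf]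
            simp
          obtain ⟨b, hb⟩ := geom (f.coeff 1) (f.coeff 0) N hN K hK0 (by
            refine h.trans (le_of_eq ?_)
            congr 1
            exact Finset.sum_congr rfl fun n _ => by rw [hf'])
          refine ⟨1, le_rfl, ?_, ?_⟩
          · rw [pow_one]
            push_cast
            linarith
          · intro j hj1 hj2
            have hj : j = 1 := by omega
            subst hj
            refine ⟨b, ?_⟩
            rw [Nat.cast_one, one_mul, pow_one, pow_one]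
            exact hb
        · obtain ⟨c, hc⟩ := ih h1
          exact step D c h1 hc
  intro D
  exact key D

end Pool.Agent.Helper9.WI
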