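import Pool.Agent.Helper20.EP.Spec1

/-!
# WINV, basic facts: the exponential function, geometric sums, van der Corput's inequality
-/

set_option autoImplicit false

open Polynomial Finset

namespace Pool.Agent.Helper9.WI

open Pool.Agent.Helper20.EP (ee)

lemma ee_eq (x : ℝ) : ee x = Complex.exp ((2 * Real.pi * x : ℝ) * Complex.I) := by
  unfold ee
  push_cast
  rfl

lemma norm_ee (x : ℝ) : ‖ee x‖ = 1 := by
  rw [ee_eq, Complex.norm_exp_ofReal_mul_I]

lemma ee_add (x y : ℝ) : ee (x + y) = ee x * ee y := by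
  unfold ee
  rw [← Complex.exp_add]
  congr 1
  push_cast
  ring

lemma ee_zero : ee 0 = 1 := by
  unfold ee
  simp

lemma ee_int (n : ℤ) : ee (n : ℝ) = 1 := by
  unfold ee
  rw [Complex.exp_eq_one_iff]
  refine ⟨n, ?_⟩
  push_cast
  ring

lemma ee_add_int (x : ℝ) (n : ℤ) : ee (x + n) = ee x := by
  rw [ee_add, ee_int, mul_one]

lemma conj_ee (x : ℝ) : (starRingEnd ℂ) (ee x) = ee (-x) := by
  rw [ee_eq, ee_eq, ← Complex.exp_conj]
  congr 1
  rw [map_mul, Complex.conj_ofReal, Complex.conj_I]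
  push_cast
  ring

lemma ee_sub (x y : ℝ) : ee (x - y) = ee x * (starRingEnd ℂ) (ee y) := by
  rw [conj_ee, ← ee_add, sub_eq_add_neg]

lemma ee_nat_mul (x : ℝ) (n : ℕ) : ee (n * x) = ee x ^ n := by
  unfold ee
  rw [← Complex.exp_nat_mul]
  congr 1
  push_cast
  ring

lemma norm_ee_sub_one (t : ℝ) : ‖ee t - 1‖ ≤ 2 * Real.pi * |t| := by
  rw [ee_eq, mul_comm ((2 * Real.pi * t : ℝ) : ℂ) Complex.I]
  refine (Real.norm_exp_I_mul_ofReal_sub_one_le).trans ?_
  rw [Real.norm_eq_abs, abs_mul, abs_of_pos Real.two_pi_pos]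

/-- `|e(x) - 1| = 2 |sin (π x)|` -/
lemma norm_ee_sub_one_eq (x : ℝ) : ‖ee x - 1‖ = 2 * |Real.sin (Real.pi * x)| := by
  have h1 : ee x - 1 = ee (x / 2) * (ee (x / 2) - ee (-(x / 2))) := by
    rw [mul_sub, ← ee_add, ← ee_add, add_halves, add_neg_cancel, ee_zero]
  have h2 : ee (x / 2) - ee (-(x / 2)) = (2 * Real.sin (Real.pi * x) : ℝ) * Complex.I := by
    rw [ee_eq, ee_eq, Complex.exp_mul_I, Complex.exp_mul_I, ← Complex.ofReal_cos,
      ← Complex.ofReal_cos, ← Complex.ofReal_sin, ← Complex.ofReal_sin]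
    have e1 : 2 * Real.pi * (x / 2) = Real.pi * x := by ring
    have e2 : 2 * Real.pi * (-(x / 2)) = -(Real.pi * x) := by ring
    rw [e1, e2, Real.cos_neg, Real.sin_neg]
    push_cast
    ring
  rw [h1, norm_mul, norm_ee, one_mul, h2, norm_mul, Complex.norm_I, mul_one, Complex.norm_real,
    Real.norm_eq_abs, abs_mul, abs_two]

/-- geometric sums -/
theorem geom (α β : ℝ) (N : ℕ) (hN : 1 ≤ N) (K : ℝ) (hK : 0 < K)
    (h : (N : ℝ) / K ≤ ‖∑ n ∈ range N, ee (α * n + β)‖) :
    ∃ b : ℤ, |α - b| ≤ K / N := by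
  have hN' : (0 : ℝ) < N := by exact_mod_cast hN
  refine ⟨round α, ?_⟩
  set t : ℝ := α - round α with ht
  have ht2 : |t| ≤ 1 / 2 := abs_sub_round α
  have hα : α = t + round α := by rw [ht]; ring
  have h1 : ∀ n ∈ range N, ee (α * n + β) = ee t ^ n * ee β := by
    intro n _
    rw [ee_add, ← ee_nat_mul]
    congr 1
    have e1 : α * n = n * t + ((n * round α : ℤ) : ℝ) := by
      rw [ht]
      push_cast
      ring
    rw [e1, ee_add_int]
  rw [Finset.sum_congr rfl h1, ← Finset.sum_mul, norm_mul, norm_ee, mul_one] at h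
  by_cases h0 : t = 0
  · rw [h0, abs_zero]
    positivity
  have h2 : 4 * |t| ≤ ‖ee t - 1‖ := by
    rw [norm_ee_sub_one_eq]
    have h3 := Real.mul_abs_le_abs_sin (x := Real.pi * t) (by
      rw [abs_mul, abs_of_pos Real.pi_pos]
      nlinarith [Real.pi_pos])
    rw [abs_mul, abs_of_pos Real.pi_pos] at h3
    have h4 : 2 / Real.pi * (Real.pi * |t|) = 2 * |t| := by
      field_simp
    rw [h4] at h3
    linarith
  have h3 : 0 < |t| := abs_pos.2 h0
  have h4 : ee t ≠ 1 := by
    intro h5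
    rw [h5, sub_self, norm_zero] at h2
    linarith
  rw [geom_sum_eq h4, norm_div] at h
  have h5 : ‖ee t ^ N - 1‖ ≤ 2 := by
    refine (norm_sub_le _ _).trans ?_
    rw [norm_pow, norm_ee, one_pow, norm_one]
    norm_num
  have h6 : ‖ee t ^ N - 1‖ / ‖ee t - 1‖ ≤ 2 / (4 * |t|) := by
    gcongr
  have h7 := h.trans h6
  rw [div_le_div_iff₀ hK (by positivity)] at h7
  rw [le_div_iff₀ hN']
  nlinarith

/-- van der Corput's inequality -/
theorem vdc (u : ℕ → ℝ) (N : ℕ) : ‖∑ n ∈ range N, ee (u n)‖ ^ 2 ≤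
    N + 2 * ∑ h ∈ range (N - 1), ‖∑ m ∈ range (N - (h + 1)), ee (u (m + (h + 1)) - u m)‖ := by
  have key : ∀ N : ℕ, ((‖∑ n ∈ range N, ee (u n)‖ ^ 2 : ℝ)) =
      N + 2 * (∑ h ∈ range (N - 1), ∑ m ∈ range (N - (h + 1)),
        ee (u (m + (h + 1)) - u m)).re := by
    intro N
    induction N with
    | zero => simp
    | succ N ih =>
      rw [Finset.sum_range_succ]
      have h1 : ∀ a b : ℂ, ‖b‖ = 1 → ‖a + b‖ ^ 2 = ‖a‖ ^ 2 + 1 + 2 * (b * (starRingEnd ℂ) a).re := by
        intro a b hb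
        have h2 : ‖b‖ ^ 2 = 1 := by rw [hb]; norm_num
        rw [← Complex.normSq_eq_norm_sq, ← Complex.normSq_eq_norm_sq] at *
        rw [Complex.normSq_add, h2]
        have h3 : (a * (starRingEnd ℂ) b).re = (b * (starRingEnd ℂ) a).re := by
          simp [Complex.mul_re]
          ring
        rw [h3]
      rw [h1 _ _ (norm_ee _), ih, map_sum, Finset.mul_sum]
      have h2 : ∑ h ∈ range (N + 1 - 1), ∑ m ∈ range (N + 1 - (h + 1)),
          ee (u (m + (h + 1)) - u m) =
          ∑ h ∈ range (N - 1), ∑ m ∈ range (N - (h + 1)), ee (u (m + (h + 1)) - u m) +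
          ∑ i ∈ range N, ee (u N) * (starRingEnd ℂ) (ee (u i)) := by
        have h3 : ∀ h ∈ range N, ∑ m ∈ range (N + 1 - (h + 1)), ee (u (m + (h + 1)) - u m) =
            ∑ m ∈ range (N - (h + 1)), ee (u (m + (h + 1)) - u m) +
              ee (u N - u (N - (h + 1))) := by
          intro h hh
          rw [Finset.mem_range] at hh
          have e1 : N + 1 - (h + 1) = N - (h + 1) + 1 := by omega
          rw [e1, Finset.sum_range_succ]
          have e2 : N - (h + 1) + (h + 1) = N := by omega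
          rw [e2]
        rw [Nat.add_sub_cancel, Finset.sum_congr rfl h3, Finset.sum_add_distrib]
        congr 1
        · cases N with
          | zero => simp
          | succ N =>
            rw [Finset.sum_range_succ, Nat.add_sub_cancel]
            simp
        · rw [← Finset.sum_range_reflect (fun i => ee (u N) * (starRingEnd ℂ) (ee (u i)))]
          refine Finset.sum_congr rfl ?_
          intro i hi
          rw [Finset.mem_range] at hi
          have e1 : N - 1 - i = N - (i + 1) := by omega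
          rw [e1, ee_sub]
      rw [h2, Complex.add_re]
      push_cast
      ring
  rw [key]
  gcongr
  refine (Complex.re_le_norm _).trans ?_
  exact norm_sum_le _ _

end Pool.Agent.Helper9.WI
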