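import Mathlib

/-!
# WINV: Vinogradov's lemma on small fractional parts of multiples
-/

set_option autoImplicit false

open Finset

namespace Pool.Agent.Helper9.WI

/-- Numbers of an arithmetic progression which are close to integers. -/
theorem count_ap (c θ ε : ℝ) (M : ℕ) (hθ : θ ≠ 0) (hε : 0 ≤ ε) (hε2 : ε ≤ 1 / 2) (T : Finset ℕ)
    (hT : T ⊆ range M) (h : ∀ m ∈ T, ∃ b : ℤ, |c + m * θ - b| ≤ ε) :
    (T.card : ℝ) ≤ (M * |θ| + 2) * (2 * ε / |θ| + 1) := by
  classical
  have hθ' : 0 < |θ| := abs_pos.2 hθ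
  have h' : ∀ m : ℕ, ∃ b : ℤ, m ∈ T → |c + m * θ - b| ≤ ε := by
    intro m
    by_cases hm : m ∈ T
    · obtain ⟨b, hb⟩ := h m hm
      exact ⟨b, fun _ => hb⟩
    · exact ⟨0, fun h => absurd h hm⟩
  choose b hb using h'
  -- every fibre is small
  have hfib : ∀ j ∈ T.image b, ((T.filter fun m => b m = j).card : ℝ) ≤ 2 * ε / |θ| + 1 := by
    intro j hj
    obtain ⟨m₁, hm₁, hm₁j⟩ := Finset.mem_image.1 hj
    have hne : (T.filter fun m => b m = j).Nonempty := ⟨m₁, Finset.mem_filter.2 ⟨hm₁, hm₁j⟩⟩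
    obtain ⟨m₀, hm₀, hmin⟩ := Finset.exists_min_image _ id hne
    rw [Finset.mem_filter] at hm₀
    have hsub : (T.filter fun m => b m = j) ⊆ Finset.Icc m₀ (m₀ + ⌊2 * ε / |θ|⌋₊) := by
      intro m hm
      have hle : m₀ ≤ m := hmin m hm
      rw [Finset.mem_filter] at hm
      rw [Finset.mem_Icc]
      refine ⟨hle, ?_⟩
      have h1 := hb m hm.1
      have h2 := hb m₀ hm₀.1
      rw [hm.2] at h1
      rw [hm₀.2] at h2
      have h3 : ((m : ℝ) - m₀) * |θ| ≤ 2 * ε := by
        have h4 : |((m : ℝ) - m₀) * θ| ≤ 2 * ε := by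
          have e1 : ((m : ℝ) - m₀) * θ = (c + m * θ - j) - (c + m₀ * θ - j) := by ring
          rw [e1]
          refine (abs_sub _ _).trans ?_
          linarith
        rw [abs_mul, abs_of_nonneg (sub_nonneg.2 (by exact_mod_cast hle))] at h4
        exact h4
      have h4 : ((m - m₀ : ℕ) : ℝ) ≤ 2 * ε / |θ| := by
        rw [Nat.cast_sub hle, le_div_iff₀ hθ']
        exact h3
      have h5 : m - m₀ ≤ ⌊2 * ε / |θ|⌋₊ := Nat.le_floor h4
      omega
    calc ((T.filter fun m => b m = j).card : ℝ) ≤ ((Finset.Icc m₀ (m₀ + ⌊2 * ε / |θ|⌋₊)).card : ℝ) := by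
          exact_mod_cast Finset.card_le_card hsub
      _ = (⌊2 * ε / |θ|⌋₊ : ℝ) + 1 := by
          rw [Nat.card_Icc]
          have : m₀ + ⌊2 * ε / |θ|⌋₊ + 1 - m₀ = ⌊2 * ε / |θ|⌋₊ + 1 := by omega
          rw [this]
          push_cast
          ring
      _ ≤ 2 * ε / |θ| + 1 := by
          have : (⌊2 * ε / |θ|⌋₊ : ℝ) ≤ 2 * ε / |θ| := Nat.floor_le (by positivity)
          linarith
  -- there are few fibres
  have himg : ((T.image b).card : ℝ) ≤ M * |θ| + 2 := by
    rcases (T.image b).eq_empty_or_nonempty with h0 | h0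
    · rw [h0, Finset.card_empty]
      push_cast
      positivity
    · set j₀ := (T.image b).min' h0 with hj₀
      set j₁ := (T.image b).max' h0 with hj₁
      have hsub : T.image b ⊆ Finset.Icc j₀ j₁ := by
        intro j hj
        rw [Finset.mem_Icc]
        exact ⟨Finset.min'_le _ _ hj, Finset.le_max' _ _ hj⟩
      have hle : j₀ ≤ j₁ := Finset.min'_le _ _ (Finset.max'_mem _ _)
      obtain ⟨m₀, hm₀, hb₀⟩ := Finset.mem_image.1 (Finset.min'_mem _ h0)
      obtain ⟨m₁, hm₁, hb₁⟩ := Finset.mem_image.1 (Finset.max'_mem _ h0)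
      have h1 := hb m₀ hm₀
      have h2 := hb m₁ hm₁
      have h3 : ((j₁ : ℝ) - j₀) ≤ M * |θ| + 2 * ε := by
        have e1 : (b m₀ : ℝ) = j₀ := by
          rw [hj₀]
          exact_mod_cast hb₀
        have e2 : (b m₁ : ℝ) = j₁ := by
          rw [hj₁]
          exact_mod_cast hb₁
        rw [e1] at h1
        rw [e2] at h2
        have h4 := (abs_le.1 h1).2
        have h5 := (abs_le.1 h2).1
        have h6 : ((m₁ : ℝ) - m₀) * θ ≤ M * |θ| := by
          refine (le_abs_self _).trans ?_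
          rw [abs_mul]
          refine mul_le_mul_of_nonneg_right ?_ hθ'.le
          have h7 := Finset.mem_range.1 (hT hm₀)
          have h8 := Finset.mem_range.1 (hT hm₁)
          have h9 : (m₀ : ℝ) < M := by exact_mod_cast h7
          have h10 : (m₁ : ℝ) < M := by exact_mod_cast h8
          have h11 : (0 : ℝ) ≤ m₀ := Nat.cast_nonneg _
          have h12 : (0 : ℝ) ≤ m₁ := Nat.cast_nonneg _
          rw [abs_le]
          constructor <;> linarith
        nlinarith [abs_le.1 h1, abs_le.1 h2]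
      calc ((T.image b).card : ℝ) ≤ ((Finset.Icc j₀ j₁).card : ℝ) := by
            exact_mod_cast Finset.card_le_card hsub
        _ = (j₁ : ℝ) - j₀ + 1 := by
            rw [Int.card_Icc]
            have : ((j₁ + 1 - j₀).toNat : ℤ) = j₁ + 1 - j₀ := Int.toNat_of_nonneg (by omega)
            have h4 : (((j₁ + 1 - j₀).toNat : ℤ) : ℝ) = ((j₁ + 1 - j₀ : ℤ) : ℝ) := by rw [this]
            push_cast at h4
            rw [h4]
            ring
        _ ≤ M * |θ| + 2 := by linarith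
  have hcard : T.card = ∑ j ∈ T.image b, (T.filter fun m => b m = j).card :=
    Finset.card_eq_sum_card_image b T
  have hcard' : (T.card : ℝ) = ∑ j ∈ T.image b, ((T.filter fun m => b m = j).card : ℝ) := by
    exact_mod_cast hcard
  rw [hcard']
  calc ∑ j ∈ T.image b, ((T.filter fun m => b m = j).card : ℝ)
      ≤ ∑ j ∈ T.image b, (2 * ε / |θ| + 1) := Finset.sum_le_sum hfib
    _ = (T.image b).card * (2 * ε / |θ| + 1) := by rw [Finset.sum_const, nsmul_eq_mul]
    _ ≤ (M * |θ| + 2) * (2 * ε / |θ| + 1) := by gcongr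

/-- Two elements of a dense set which are close to each other. -/
theorem exists_close (N : ℕ) (H : Finset ℕ) (hH : H ⊆ range N) (δ : ℝ) (hδ : 0 < δ) (hδ1 : δ ≤ 1)
    (hN : 2 / δ ≤ N) (hc : δ * N ≤ H.card) :
    ∃ h ∈ H, ∃ h' ∈ H, h < h' ∧ ((h' - h : ℕ) : ℝ) ≤ 4 / δ := by
  classical
  -- the map `h ↦ h / L` with `L = ⌊2 / δ⌋ ...`
  set L : ℕ := ⌊4 / δ⌋₊ with hL
  have hL1 : 4 ≤ L := by
    refine Nat.le_floor ?_
    rw [le_div_iff₀ hδ]
    push_cast
    linarith
  have hLle : (L : ℝ) ≤ 4 / δ := Nat.floor_le (by positivity)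
  have hLlt : 4 / δ < L + 1 := Nat.lt_floor_add_one _
  have hL0 : 0 < L := by omega
  -- pigeonhole
  have hmaps : ∀ h ∈ H, h / L ∈ range (N / L + 1) := by
    intro h hh
    rw [Finset.mem_range]
    have := Finset.mem_range.1 (hH hh)
    exact Nat.lt_succ_of_le (Nat.div_le_div_right this.le)
  have hcard : (range (N / L + 1)).card < H.card := by
    rw [Finset.card_range]
    have h1 : ((N / L + 1 : ℕ) : ℝ) < δ * N := by
      have h2 : ((N / L : ℕ) : ℝ) ≤ N / L := Nat.cast_div_le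
      have hLr : (0 : ℝ) < L := by exact_mod_cast hL0
      have h3 : (N : ℝ) / L < δ * N / 2 := by
        have hN0 : (0 : ℝ) < N := lt_of_lt_of_le (by positivity) hN
        rw [div_lt_iff₀ hLr]
        have h4 : 4 < δ * (L + 1) := by
          rw [div_lt_iff₀ hδ] at hLlt
          linarith
        have h5 : (1 : ℝ) ≤ L / 4 := by
          have : (4 : ℝ) ≤ L := by exact_mod_cast hL1
          linarith
        have h6 : 2 < δ * L := by nlinarith
        nlinarith
      have h7 : 1 ≤ δ * N / 2 := by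
        rw [div_le_iff₀ hδ] at hN
        linarith
      push_cast
      linarith
    have h2 : ((N / L + 1 : ℕ) : ℝ) < H.card := lt_of_lt_of_le h1 hc
    exact_mod_cast h2
  obtain ⟨x, hx, y, hy, hne, hxy⟩ := Finset.exists_ne_map_eq_of_card_lt_of_maps_to hcard hmaps
  have hclose : ∀ a b : ℕ, a < b → a / L = b / L → ((b - a : ℕ) : ℝ) ≤ 4 / δ := by
    intro a b hab he
    have h1 : b - a ≤ L := by
      have h2 := Nat.div_add_mod a L
      have h3 := Nat.div_add_mod b L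
      have h4 := Nat.mod_lt b hL0
      have h5 := Nat.mod_lt a hL0
      rw [he] at h2
      omega
    have h2 : ((b - a : ℕ) : ℝ) ≤ L := by exact_mod_cast h1
    linarith
  rcases lt_or_gt_of_ne hne with h | h
  · exact ⟨x, hx, y, hy, h, hclose x y h hxy⟩
  · exact ⟨y, hy, x, hx, h, hclose y x h hxy.symm⟩

/-- **Vinogradov's lemma.** -/
theorem vino (α ε δ : ℝ) (N : ℕ) (H : Finset ℕ) (hH : H ⊆ range N) (hδ : 0 < δ) (hδ1 : δ ≤ 1)
    (hN : 64 / δ ^ 2 ≤ N) (hε0 : 0 ≤ ε) (hε : ε ≤ δ / 64) (hc : δ * N ≤ H.card)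
    (h : ∀ m ∈ H, ∃ b : ℤ, |α * m - b| ≤ ε) :
    ∃ q : ℕ, 1 ≤ q ∧ (q : ℝ) ≤ 4 / δ ∧ ∃ b : ℤ, |q * α - b| ≤ 64 * ε / (δ ^ 2 * N) := by
  classical
  have hNδ : 2 / δ ≤ N := by
    refine le_trans ?_ hN
    rw [div_le_div_iff₀ hδ (by positivity)]
    nlinarith
  have hN0 : (0 : ℝ) < N := lt_of_lt_of_le (by positivity) hN
  obtain ⟨h₁, hh₁, h₂, hh₂, hlt, hle⟩ := exists_close N H hH δ hδ hδ1 hNδ hc
  set q : ℕ := h₂ - h₁ with hq
  have hq1 : 1 ≤ q := by omega
  obtain ⟨b₁, hb₁⟩ := h h₁ hh₁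
  obtain ⟨b₂, hb₂⟩ := h h₂ hh₂
  set θ : ℝ := q * α - (b₂ - b₁ : ℤ) with hθ
  have hqr : (q : ℝ) = h₂ - h₁ := by
    rw [hq, Nat.cast_sub hlt.le]
  have hθ1 : |θ| ≤ 2 * ε := by
    have e1 : θ = (α * h₂ - b₂) - (α * h₁ - b₁) := by
      rw [hθ, hqr]
      push_cast
      ring
    rw [e1]
    refine (abs_sub _ _).trans ?_
    linarith
  refine ⟨q, hq1, hle, b₂ - b₁, ?_⟩
  rw [← hθ]
  by_cases h0 : θ = 0
  · rw [h0, abs_zero]
    positivity
  have hθpos : 0 < |θ| := abs_pos.2 h0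
  -- count in every residue class
  set M : ℕ := N / q + 1 with hM
  have hcls : ∀ r ∈ range q, ((H.filter fun m => m % q = r).card : ℝ) ≤
      (M * |θ| + 2) * (2 * ε / |θ| + 1) := by
    intro r hr
    have hinj : Set.InjOn (fun m : ℕ => m / q) (H.filter fun m => m % q = r : Finset ℕ) := by
      intro a ha b hb hab
      have ha' := (Finset.mem_filter.1 (Finset.mem_coe.1 ha)).2
      have hb' := (Finset.mem_filter.1 (Finset.mem_coe.1 hb)).2
      have h1 := Nat.div_add_mod a q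
      have h2 := Nat.div_add_mod b q
      have h3 : a / q = b / q := hab
      rw [ha', h3] at h1
      rw [hb'] at h2
      omega
    rw [← Finset.card_image_of_injOn hinj]
    refine count_ap (α * r) θ ε M h0 hε0 (by linarith) _ ?_ ?_
    · intro m hm
      obtain ⟨a, ha, rfl⟩ := Finset.mem_image.1 hm
      rw [Finset.mem_filter] at ha
      have := Finset.mem_range.1 (hH ha.1)
      rw [Finset.mem_range, hM]
      exact Nat.lt_succ_of_le (Nat.div_le_div_right this.le)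
    · intro m hm
      obtain ⟨a, ha, rfl⟩ := Finset.mem_image.1 hm
      rw [Finset.mem_filter] at ha
      obtain ⟨b, hb⟩ := h a ha.1
      have h1 := Nat.div_add_mod a q
      rw [ha.2] at h1
      change ∃ b : ℤ, |α * r + ((a / q : ℕ) : ℝ) * θ - b| ≤ ε
      generalize a / q = k at h1 ⊢
      refine ⟨b - (k : ℤ) * (b₂ - b₁), ?_⟩
      have h2 : (a : ℝ) = q * (k : ℝ) + r := by exact_mod_cast h1.symm
      have e1 : α * r + (k : ℝ) * θ - ((b - (k : ℤ) * (b₂ - b₁) : ℤ) : ℝ) =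
          α * a - b := by
        rw [hθ, h2]
        push_cast
        ring
      rw [e1]
      exact hb
  have hsum : (H.card : ℝ) ≤ q * ((M * |θ| + 2) * (2 * ε / |θ| + 1)) := by
    have h1 : H.card = ∑ r ∈ range q, (H.filter fun m => m % q = r).card :=
      Finset.card_eq_sum_card_fiberwise (fun m _ => Finset.mem_coe.2
        (Finset.mem_range.2 (Nat.mod_lt _ (by omega))))
    have h2 : (H.card : ℝ) = ∑ r ∈ range q, ((H.filter fun m => m % q = r).card : ℝ) := by
      exact_mod_cast h1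
    rw [h2]
    calc ∑ r ∈ range q, ((H.filter fun m => m % q = r).card : ℝ)
        ≤ ∑ r ∈ range q, ((M * |θ| + 2) * (2 * ε / |θ| + 1)) := Finset.sum_le_sum hcls
      _ = q * ((M * |θ| + 2) * (2 * ε / |θ| + 1)) := by
          rw [Finset.sum_const, nsmul_eq_mul, Finset.card_range]
  -- conclusion
  have hq0 : (0 : ℝ) < q := by exact_mod_cast hq1
  have hqM : (q : ℝ) * M ≤ N + q := by
    have h1 : q * (N / q) ≤ N := Nat.mul_div_le N q
    have h2 : ((q * (N / q) : ℕ) : ℝ) ≤ N := by exact_mod_cast h1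
    rw [hM]
    push_cast at h2 ⊢
    nlinarith
  have hq4 : (q : ℝ) ≤ δ * N / 16 := by
    refine hle.trans ?_
    rw [div_le_iff₀ (by positivity)] at hN
    rw [div_le_div_iff₀ hδ (by norm_num)]
    nlinarith
  set x : ℝ := 2 * ε / |θ| with hx
  have hx0 : 0 ≤ x := by positivity
  have hxθ : x * |θ| = 2 * ε := by
    rw [hx, div_mul_cancel₀ _ hθpos.ne']
  -- `δ N ≤ q (M |θ| + 2)(x + 1) = qM(2 ε + |θ|) + 2 q (x + 1)`
  have h3 : δ * N ≤ (N + q) * (4 * ε) + 2 * q * (x + 1) := by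
    refine hc.trans (hsum.trans ?_)
    have e1 : (q : ℝ) * ((M * |θ| + 2) * (x + 1)) = (q * M) * (x * |θ| + |θ|) + 2 * q * (x + 1) := by
      ring
    rw [e1, hxθ]
    have h4 : (q : ℝ) * M * (2 * ε + |θ|) ≤ (N + q) * (4 * ε) := by
      have h5 : 2 * ε + |θ| ≤ 4 * ε := by linarith
      have h6 : 0 ≤ 2 * ε + |θ| := by positivity
      calc (q : ℝ) * M * (2 * ε + |θ|) ≤ (N + q) * (2 * ε + |θ|) := by gcongr
        _ ≤ (N + q) * (4 * ε) := by gcongr
    linarith
  have h4 : (N + q : ℝ) * (4 * ε) ≤ δ * N / 8 := by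
    have h5 : (q : ℝ) ≤ N := by
      refine hq4.trans ?_
      nlinarith
    have h6 : (N + q : ℝ) ≤ 2 * N := by linarith
    calc (N + q : ℝ) * (4 * ε) ≤ (2 * N) * (4 * (δ / 64)) := by gcongr
      _ = δ * N / 8 := by ring
  have h5 : δ * N / 2 ≤ 2 * q * x := by
    have : 2 * (q : ℝ) ≤ δ * N / 8 := by linarith
    linarith
  have h6 : δ * N * |θ| / 2 ≤ 4 * q * ε := by
    have h7 : δ * N / 2 * |θ| ≤ 2 * q * x * |θ| := by gcongr
    have h8 : 2 * (q : ℝ) * x * |θ| = 4 * q * ε := by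
      rw [mul_assoc, hxθ]
      ring
    rw [h8] at h7
    linarith
  rw [le_div_iff₀ (by positivity)]
  have h7 : 4 * (q : ℝ) * ε ≤ 4 * (4 / δ) * ε := by gcongr
  have h8 : δ * N * |θ| / 2 ≤ 16 * ε / δ := by
    refine h6.trans (h7.trans (le_of_eq ?_))
    ring
  rw [le_div_iff₀ hδ] at h8
  nlinarith

end Pool.Agent.Helper9.WI
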