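import Pool.Agent.Helper9.EP.Basic
import Pool.Agent.Helper9.EP.Vino

/-!
# WINV: the leading coefficient
-/

set_option autoImplicit false

open Polynomial Finset

namespace Pool.Agent.Helper9.WI

open Pool.Agent.Helper20.EP (ee)

/-- the statement of the theorem in degree `D` with the constant `C` -/
def PW (D C : ℕ) : Prop := ∀ f : ℝ[X], f.natDegree ≤ D → ∀ N : ℕ, 1 ≤ N → ∀ K : ℝ, 2 ≤ K →
  (N : ℝ) / K ≤ ‖∑ n ∈ range N, ee (f.eval (n : ℝ))‖ →
    ∃ q : ℕ, 1 ≤ q ∧ (q : ℝ) ≤ K ^ C ∧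
      ∀ j : ℕ, 1 ≤ j → j ≤ D → ∃ b : ℤ, |q * f.coeff j - b| ≤ K ^ C / (N : ℝ) ^ j

lemma taylor_coeff_sum (r : ℝ) (f : ℝ[X]) (d : ℕ) (hf : f.natDegree ≤ d) (n : ℕ) :
    (taylor r f).coeff n = ∑ i ∈ range (d + 1), f.coeff i * (i.choose n : ℝ) * r ^ (i - n) := by
  rw [taylor_coeff]
  conv_lhs => rw [f.as_sum_range' (d + 1) (Nat.lt_succ_of_le hf)]
  rw [map_sum, eval_finsetSum]
  refine Finset.sum_congr rfl fun i _ => ?_
  rw [hasseDeriv_monomial, eval_monomial]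
  ring

/-- the difference polynomial -/
lemma diff_coeff (r : ℝ) (f : ℝ[X]) (D : ℕ) (hf : f.natDegree ≤ D + 1) :
    (taylor r f - f).natDegree ≤ D ∧ (taylor r f - f).coeff D = (D + 1) * r * f.coeff (D + 1) := by
  constructor
  · rw [natDegree_le_iff_coeff_eq_zero]
    intro n hn
    rw [coeff_sub, taylor_coeff_sum r f (D + 1) hf]
    rcases Nat.lt_or_ge (D + 1) n with h | h
    · rw [coeff_eq_zero_of_natDegree_lt (lt_of_le_of_lt hf h), sub_zero]
      refine Finset.sum_eq_zero fun i hi => ?_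
      rw [Finset.mem_range] at hi
      rw [Nat.choose_eq_zero_of_lt (by omega)]
      simp
    · have hn' : n = D + 1 := by omega
      subst hn'
      rw [Finset.sum_range_succ, Nat.choose_self, Nat.sub_self]
      rw [Finset.sum_eq_zero]
      · simp
      · intro i hi
        rw [Finset.mem_range] at hi
        rw [Nat.choose_eq_zero_of_lt (by omega)]
        simp
  · rw [coeff_sub, taylor_coeff_sum r f (D + 1) hf, Finset.sum_range_succ, Finset.sum_range_succ,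
      Nat.choose_self, Nat.sub_self, Nat.choose_succ_self_right]
    rw [Finset.sum_eq_zero]
    · have : D + 1 - D = 1 := by omega
      rw [this]
      push_cast
      ring
    · intro i hi
      rw [Finset.mem_range] at hi
      rw [Nat.choose_eq_zero_of_lt hi]
      simp

lemma pigeon (H : Finset ℕ) (q : ℕ → ℕ) (B : ℝ) (hB : 0 < B)
    (hq : ∀ h ∈ H, 1 ≤ q h ∧ (q h : ℝ) ≤ B) (hH : H.Nonempty) :
    ∃ k : ℕ, 1 ≤ k ∧ (k : ℝ) ≤ B ∧ (H.card : ℝ) / B ≤ ((H.filter fun h => q h = k).card : ℝ) := by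
  classical
  by_contra hcon
  push Not at hcon
  have h1 : H.card = ∑ k ∈ Finset.Icc 1 ⌊B⌋₊, (H.filter fun h => q h = k).card := by
    refine Finset.card_eq_sum_card_fiberwise fun h hh => ?_
    rw [Finset.coe_Icc, Set.mem_Icc]
    exact ⟨(hq h hh).1, Nat.le_floor (hq h hh).2⟩
  have h2 : (H.card : ℝ) = ∑ k ∈ Finset.Icc 1 ⌊B⌋₊, ((H.filter fun h => q h = k).card : ℝ) := by
    exact_mod_cast h1
  have hne : (Finset.Icc 1 ⌊B⌋₊).Nonempty := by
    obtain ⟨h, hh⟩ := hH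
    exact ⟨q h, Finset.mem_Icc.2 ⟨(hq h hh).1, Nat.le_floor (hq h hh).2⟩⟩
  have h3 : ∑ k ∈ Finset.Icc 1 ⌊B⌋₊, ((H.filter fun h => q h = k).card : ℝ) <
      ∑ k ∈ Finset.Icc 1 ⌊B⌋₊, (H.card : ℝ) / B := by
    refine Finset.sum_lt_sum_of_nonempty hne fun k hk => ?_
    rw [Finset.mem_Icc] at hk
    exact hcon k hk.1 ((Nat.le_floor_iff hB.le).1 hk.2)
  rw [← h2, Finset.sum_const, nsmul_eq_mul, Nat.card_Icc, Nat.add_sub_cancel] at h3
  have h4 : (⌊B⌋₊ : ℝ) * ((H.card : ℝ) / B) ≤ B * ((H.card : ℝ) / B) := by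
    have := Nat.floor_le hB.le
    gcongr
  rw [mul_div_cancel₀ _ hB.ne'] at h4
  linarith

/-- many differences have large sums -/
lemma many_large (u : ℕ → ℝ) (N : ℕ) (K : ℝ) (hK : 2 ≤ K) (hN : 4 * K ^ 2 ≤ N)
    (h : (N : ℝ) / K ≤ ‖∑ n ∈ range N, ee (u n)‖) :
    (N : ℝ) / (4 * K ^ 2) ≤ (((range (N - 1)).filter fun h =>
      (N : ℝ) / (8 * K ^ 2) ≤ ‖∑ m ∈ range (N - (h + 1)), ee (u (m + (h + 1)) - u m)‖).card : ℝ) := by
  classical
  set V : ℕ → ℝ := fun h => ‖∑ m ∈ range (N - (h + 1)), ee (u (m + (h + 1)) - u m)‖ with hV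
  have hN0 : (0 : ℝ) < N := lt_of_lt_of_le (by positivity) hN
  have hVN : ∀ h, V h ≤ N := by
    intro h
    refine (norm_sum_le _ _).trans ?_
    rw [Finset.sum_congr rfl fun m _ => norm_ee _, Finset.sum_const, Finset.card_range,
      nsmul_eq_mul, mul_one]
    exact_mod_cast Nat.sub_le _ _
  set H := (range (N - 1)).filter fun h => (N : ℝ) / (8 * K ^ 2) ≤ V h with hH
  have h1 : ∑ h ∈ range (N - 1), V h ≤ H.card * N + N * (N / (8 * K ^ 2)) := by
    rw [← Finset.sum_filter_add_sum_filter_not (range (N - 1))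
      (fun h => (N : ℝ) / (8 * K ^ 2) ≤ V h)]
    refine add_le_add ?_ ?_
    · calc ∑ x ∈ H, V x ≤ ∑ x ∈ H, (N : ℝ) := Finset.sum_le_sum fun x _ => hVN x
        _ = H.card * N := by rw [Finset.sum_const, nsmul_eq_mul]
    · calc ∑ x ∈ (range (N - 1)).filter (fun h => ¬ (N : ℝ) / (8 * K ^ 2) ≤ V h), V x
          ≤ ∑ x ∈ (range (N - 1)).filter (fun h => ¬ (N : ℝ) / (8 * K ^ 2) ≤ V h),
            (N : ℝ) / (8 * K ^ 2) := by
            refine Finset.sum_le_sum fun x hx => ?_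
            rw [Finset.mem_filter, not_le] at hx
            exact hx.2.le
        _ = ((range (N - 1)).filter (fun h => ¬ (N : ℝ) / (8 * K ^ 2) ≤ V h)).card *
            ((N : ℝ) / (8 * K ^ 2)) := by rw [Finset.sum_const, nsmul_eq_mul]
        _ ≤ N * (N / (8 * K ^ 2)) := by
            have h2 : ((range (N - 1)).filter (fun h => ¬ (N : ℝ) / (8 * K ^ 2) ≤ V h)).card ≤ N := by
              refine (Finset.card_filter_le _ _).trans ?_
              rw [Finset.card_range]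
              exact Nat.sub_le _ _
            have h3 : (((range (N - 1)).filter
                (fun h => ¬ (N : ℝ) / (8 * K ^ 2) ≤ V h)).card : ℝ) ≤ N := by exact_mod_cast h2
            gcongr
  have h2 := vdc u N
  have h3 : ((N : ℝ) / K) ^ 2 ≤ ‖∑ n ∈ range N, ee (u n)‖ ^ 2 := by
    have : 0 ≤ (N : ℝ) / K := by positivity
    gcongr
  have h4 : ((N : ℝ) / K) ^ 2 ≤ N + 2 * (H.card * N + N * (N / (8 * K ^ 2))) := by
    refine h3.trans (h2.trans ?_)
    have : ∑ h ∈ range (N - 1), ‖∑ m ∈ range (N - (h + 1)), ee (u (m + (h + 1)) - u m)‖ =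
      ∑ h ∈ range (N - 1), V h := rfl
    rw [this]
    linarith
  have hK0 : 0 < K := by linarith
  have e1 : ((N : ℝ) / K) ^ 2 = N * (N / K ^ 2) := by
    field_simp
  have e2 : (N : ℝ) / (8 * K ^ 2) = N / K ^ 2 / 8 := by
    rw [mul_comm, div_mul_eq_div_div]
  have e3 : (N : ℝ) / (4 * K ^ 2) = N / K ^ 2 / 4 := by
    rw [mul_comm, div_mul_eq_div_div]
  rw [e1, e2] at h4
  rw [e3]
  set x : ℝ := N / K ^ 2 with hx
  have h5 : 4 ≤ x := by
    rw [hx, le_div_iff₀ (by positivity)]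
    exact hN
  have h6 : (N : ℝ) * x ≤ N * (1 + 2 * H.card + x / 4) := by
    refine h4.trans (le_of_eq ?_)
    ring
  have h7 := le_of_mul_le_mul_left h6 hN0
  linarith

/-- powers -/
lemma pow_bound (K : ℝ) (hK : 2 ≤ K) (n : ℕ) : ((n : ℝ)) ≤ K ^ n := by
  have h1 : (n : ℝ) ≤ 2 ^ n := by exact_mod_cast (Nat.lt_two_pow_self (n := n)).le
  have h2 : (2 : ℝ) ^ n ≤ K ^ n := by gcongr
  linarith

lemma two_pow_bound (K : ℝ) (hK : 2 ≤ K) (n : ℕ) : (2 : ℝ) ^ n ≤ K ^ n := by gcongr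

/-- the leading coefficient -/
theorem lead (D c : ℕ) (hD : 1 ≤ D) (IH : PW D c) (f : ℝ[X]) (hf : f.natDegree ≤ D + 1) (N : ℕ)
    (K : ℝ) (hK : 2 ≤ K) (hN : K ^ (15 * c + 5 * D + 14) ≤ N)
    (h : (N : ℝ) / K ≤ ‖∑ n ∈ range N, ee (f.eval (n : ℝ))‖) :
    ∃ Q : ℕ, 1 ≤ Q ∧ (Q : ℝ) ≤ K ^ (15 * c + 5 * D + 14) ∧
      ∃ b : ℤ, |Q * f.coeff (D + 1) - b| ≤ K ^ (15 * c + 5 * D + 14) / (N : ℝ) ^ (D + 1) := by
  classical
  have hK0 : 0 < K := by linarith
  have hK1 : 1 ≤ K := by linarith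
  have hmono : ∀ m n : ℕ, m ≤ n → K ^ m ≤ K ^ n := fun m n hmn => pow_le_pow_right₀ hK1 hmn
  have h2K : ∀ n : ℕ, (2 : ℝ) ^ n ≤ K ^ n := two_pow_bound K hK
  -- `K' = 8 K ^ 2`
  set K' : ℝ := 8 * K ^ 2 with hK'
  have hK'5 : K' ≤ K ^ 5 := by
    have := h2K 3
    calc K' = 2 ^ 3 * K ^ 2 := by rw [hK']; norm_num
      _ ≤ K ^ 3 * K ^ 2 := by gcongr
      _ = K ^ 5 := by ring
  have hK'2 : 2 ≤ K' := by rw [hK']; nlinarith
  have hK'0 : 0 < K' := by linarith
  set B : ℝ := K' ^ c with hB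
  have hB0 : 0 < B := by positivity
  have hB1 : 1 ≤ B := one_le_pow₀ (by linarith)
  have hB5 : B ≤ K ^ (5 * c) := by
    rw [hB, pow_mul]
    gcongr
  have hKD : K' ^ D ≤ K ^ (5 * D) := by
    rw [pow_mul]
    gcongr
  have hN4 : 4 * K ^ 2 ≤ N := by
    have := h2K 2
    calc 4 * K ^ 2 = 2 ^ 2 * K ^ 2 := by norm_num
      _ ≤ K ^ 2 * K ^ 2 := by gcongr
      _ = K ^ 4 := by ring
      _ ≤ K ^ (15 * c + 5 * D + 14) := hmono _ _ (by omega)
      _ ≤ N := hN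
  have hN0 : (0 : ℝ) < N := lt_of_lt_of_le (by positivity) hN4
  have hN1 : (1 : ℝ) ≤ N := by
    refine le_trans ?_ hN
    exact one_le_pow₀ hK1
  set u : ℕ → ℝ := fun n => f.eval (n : ℝ) with hu
  set H := (range (N - 1)).filter fun h =>
      (N : ℝ) / (8 * K ^ 2) ≤ ‖∑ m ∈ range (N - (h + 1)), ee (u (m + (h + 1)) - u m)‖ with hH
  have hcard : (N : ℝ) / (4 * K ^ 2) ≤ (H.card : ℝ) := many_large u N K hK hN4 h
  have hHne : H.Nonempty := by
    rw [← Finset.card_pos]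
    have : (0 : ℝ) < H.card := lt_of_lt_of_le (by positivity) hcard
    exact_mod_cast this
  -- the denominators
  have hq : ∀ h : ℕ, ∃ q : ℕ, h ∈ H → (1 ≤ q ∧ (q : ℝ) ≤ B ∧
      ∃ b : ℤ, |(q * (D + 1) * f.coeff (D + 1)) * ((h + 1 : ℕ) : ℝ) - b| ≤
        B * K' ^ D / (N : ℝ) ^ D) := by
    intro h
    by_cases hh : h ∈ H
    swap
    · exact ⟨0, fun h' => absurd h' hh⟩
    rw [hH, Finset.mem_filter, Finset.mem_range] at hh
    obtain ⟨hh1, hh2⟩ := hh
    set M : ℕ := N - (h + 1) with hM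
    have hVM : ‖∑ m ∈ range M, ee (u (m + (h + 1)) - u m)‖ ≤ M := by
      refine (norm_sum_le _ _).trans ?_
      rw [Finset.sum_congr rfl fun m _ => norm_ee _, Finset.sum_const, Finset.card_range,
        nsmul_eq_mul, mul_one]
    have hNM : (N : ℝ) / K' ≤ M := hh2.trans hVM
    have hM1 : 1 ≤ M := by omega
    have hMN : (M : ℝ) ≤ N := by exact_mod_cast Nat.sub_le _ _
    obtain ⟨hd1, hd2⟩ := diff_coeff ((h + 1 : ℕ) : ℝ) f D hf
    have hev : ∀ m : ℕ, (taylor ((h + 1 : ℕ) : ℝ) f - f).eval (m : ℝ) = u (m + (h + 1)) - u m := by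
      intro m
      rw [eval_sub, taylor_eval, hu]
      simp only
      congr 2
      push_cast
      ring
    obtain ⟨q, hq1, hq2, hq3⟩ := IH (taylor ((h + 1 : ℕ) : ℝ) f - f) hd1 M hM1 K' hK'2 (by
      have : ∀ m ∈ range M, ee ((taylor ((h + 1 : ℕ) : ℝ) f - f).eval (m : ℝ)) =
          ee (u (m + (h + 1)) - u m) := fun m _ => by rw [hev]
      rw [Finset.sum_congr rfl this]
      refine le_trans ?_ hh2
      gcongr)
    refine ⟨q, fun _ => ⟨hq1, hq2, ?_⟩⟩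
    obtain ⟨b, hb⟩ := hq3 D hD le_rfl
    refine ⟨b, ?_⟩
    rw [hd2] at hb
    have e1 : (q : ℝ) * (D + 1) * f.coeff (D + 1) * ((h + 1 : ℕ) : ℝ) - b =
        q * ((D + 1) * ((h + 1 : ℕ) : ℝ) * f.coeff (D + 1)) - b := by ring
    rw [e1]
    refine hb.trans ?_
    have hM0 : (0 : ℝ) < M := by exact_mod_cast hM1
    rw [div_le_div_iff₀ (by positivity) (by positivity)]
    have h5 : (N : ℝ) ^ D ≤ (K' * M) ^ D := by
      rw [div_le_iff₀ hK'0] at hNM
      gcongr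
      linarith
    rw [mul_pow] at h5
    calc K' ^ c * (N : ℝ) ^ D ≤ B * (K' ^ D * M ^ D) := by gcongr
      _ = B * K' ^ D * M ^ D := by ring
  choose q hq using hq
  obtain ⟨k, hk1, hk2, hk3⟩ := pigeon H q B hB0 (fun h hh => ⟨(hq h hh).1, (hq h hh).2.1⟩) hHne
  set T := (H.filter fun h => q h = k).image (fun h => h + 1) with hT
  have hTcard : T.card = (H.filter fun h => q h = k).card :=
    Finset.card_image_of_injective _ (add_left_injective 1)
  set δ : ℝ := 1 / (4 * K ^ 2 * B) with hδ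
  have hδ0 : 0 < δ := by positivity
  have hδ1 : δ ≤ 1 := by
    rw [hδ, div_le_one (by positivity)]
    nlinarith
  have hinv : 1 / δ = 4 * K ^ 2 * B := by rw [hδ, one_div_one_div]
  have h64 : (64 : ℝ) = 2 ^ 6 := by norm_num
  set ε : ℝ := B * K' ^ D / (N : ℝ) ^ D with hε
  obtain ⟨q', hq'1, hq'2, b, hb⟩ := vino (k * (D + 1) * f.coeff (D + 1)) ε δ N T (by
      intro m hm
      obtain ⟨h, hh, rfl⟩ := Finset.mem_image.1 hm
      have h1 := (Finset.mem_filter.1 hh).1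
      rw [hH, Finset.mem_filter, Finset.mem_range] at h1
      rw [Finset.mem_range]
      omega) hδ0 hδ1 (by
      -- `64 / δ ^ 2 ≤ N`
      have e1 : 64 / δ ^ 2 = 64 * (4 * K ^ 2 * B) ^ 2 := by
        rw [← hinv]
        ring
      rw [e1]
      calc 64 * (4 * K ^ 2 * B) ^ 2 = 2 ^ 10 * K ^ 4 * B ^ 2 := by ring
        _ ≤ K ^ 10 * K ^ 4 * (K ^ (5 * c)) ^ 2 := by
          have := h2K 10
          gcongr
        _ = K ^ (10 * c + 14) := by
          rw [← pow_mul, ← pow_add, ← pow_add]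
          congr 1
          ring
        _ ≤ K ^ (15 * c + 5 * D + 14) := hmono _ _ (by omega)
        _ ≤ N := hN) (by positivity) (by
      -- `ε ≤ δ / 64`
      rw [hε, hδ, div_div, div_le_div_iff₀ (by positivity) (by positivity), one_mul]
      have hND : (N : ℝ) ≤ N ^ D := by
        calc (N : ℝ) = N ^ 1 := (pow_one _).symm
          _ ≤ N ^ D := pow_le_pow_right₀ hN1 hD
      refine le_trans ?_ hND
      calc B * K' ^ D * (4 * K ^ 2 * B * 64) = 2 ^ 8 * K ^ 2 * (B ^ 2 * K' ^ D) := by ring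
        _ ≤ K ^ 8 * K ^ 2 * ((K ^ (5 * c)) ^ 2 * K ^ (5 * D)) := by
          have := h2K 8
          gcongr
        _ = K ^ (10 * c + 5 * D + 10) := by
          rw [← pow_mul, ← pow_add, ← pow_add, ← pow_add]
          congr 1
          ring
        _ ≤ K ^ (15 * c + 5 * D + 14) := hmono _ _ (by omega)
        _ ≤ N := hN) (by
      -- `δ N ≤ |T|`
      rw [hTcard]
      refine le_trans ?_ hk3
      rw [le_div_iff₀ hB0]
      refine le_trans (le_of_eq ?_) hcard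
      rw [hδ]
      field_simp) (by
      intro m hm
      obtain ⟨h, hh, rfl⟩ := Finset.mem_image.1 hm
      have h1 := Finset.mem_filter.1 hh
      obtain ⟨-, -, b, hb⟩ := hq h h1.1
      rw [h1.2] at hb
      exact ⟨b, hb⟩)
  refine ⟨q' * k * (D + 1), ?_, ?_, b, ?_⟩
  · have : 0 < q' * k * (D + 1) := by positivity
    exact this
  · have e1 : 4 / δ = 4 * (4 * K ^ 2 * B) := by rw [← hinv]; ring
    rw [e1] at hq'2
    have h5 : ((D + 1 : ℕ) : ℝ) ≤ K ^ (D + 1) := pow_bound K hK (D + 1)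
    have h6 : ((q' * k * (D + 1) : ℕ) : ℝ) = q' * k * ((D + 1 : ℕ) : ℝ) := by push_cast; ring
    rw [h6]
    calc (q' : ℝ) * k * ((D + 1 : ℕ) : ℝ) ≤ (4 * (4 * K ^ 2 * B)) * B * K ^ (D + 1) := by gcongr
      _ = 2 ^ 4 * K ^ 2 * (B * B) * K ^ (D + 1) := by ring
      _ ≤ K ^ 4 * K ^ 2 * (K ^ (5 * c) * K ^ (5 * c)) * K ^ (D + 1) := by
        have := h2K 4
        gcongr
      _ = K ^ (10 * c + D + 7) := by
        rw [← pow_add, ← pow_add, ← pow_add, ← pow_add]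
        congr 1
        ring
      _ ≤ K ^ (15 * c + 5 * D + 14) := hmono _ _ (by omega)
  · have e0 : ((q' * k * (D + 1) : ℕ) : ℝ) * f.coeff (D + 1) - b =
        q' * (k * (D + 1) * f.coeff (D + 1)) - b := by
      push_cast
      ring
    rw [e0]
    refine hb.trans ?_
    have e1 : 64 * ε / (δ ^ 2 * N) = 64 * (4 * K ^ 2 * B) ^ 2 * (B * K' ^ D) / (N : ℝ) ^ (D + 1) := by
      rw [← hinv, hε]
      field_simp
      ring
    rw [e1]
    refine div_le_div_of_nonneg_right ?_ (by positivity)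
    calc 64 * (4 * K ^ 2 * B) ^ 2 * (B * K' ^ D) = 2 ^ 10 * K ^ 4 * (B ^ 3 * K' ^ D) := by ring
      _ ≤ K ^ 10 * K ^ 4 * ((K ^ (5 * c)) ^ 3 * K ^ (5 * D)) := by
        have := h2K 10
        gcongr
      _ = K ^ (15 * c + 5 * D + 14) := by
        rw [← pow_mul, ← pow_add, ← pow_add, ← pow_add]
        congr 1
        ring

end Pool.Agent.Helper9.WI
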