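import Pool.Agent.Helper9.EP.Lead

/-!
# WINV: restriction to a progression, translation, and the theorem
-/

set_option autoImplicit false

open Polynomial Finset

namespace Pool.Agent.Helper9.WI

open Pool.Agent.Helper20.EP (ee)

/-- a sum over a shifted shorter interval -/
lemma shift_sum (z : ℕ → ℂ) (hz : ∀ n, ‖z n‖ ≤ 1) (N L t : ℕ) (hL : L ≤ N) (ht : t ≤ L) :
    ‖∑ n ∈ range N, z n - ∑ n ∈ range (N - L), z (n + t)‖ ≤ L := by
  have hN : N = t + ((N - L) + (L - t)) := by omega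
  have h1 : ∑ n ∈ range N, z n = ∑ n ∈ range t, z n + (∑ n ∈ range (N - L), z (n + t) +
      ∑ n ∈ range (L - t), z (t + (N - L + n))) := by
    conv_lhs => rw [hN]
    rw [Finset.sum_range_add, Finset.sum_range_add]
    congr 2
    refine Finset.sum_congr rfl fun n _ => ?_
    rw [add_comm]
  have h2 : ∑ n ∈ range N, z n - ∑ n ∈ range (N - L), z (n + t) =
      ∑ n ∈ range t, z n + ∑ n ∈ range (L - t), z (t + (N - L + n)) := by
    rw [h1]
    ring
  rw [h2]
  have h3 : ∀ (k : ℕ) (y : ℕ → ℂ), (∀ n, ‖y n‖ ≤ 1) → ‖∑ n ∈ range k, y n‖ ≤ k := by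
    intro k y hy
    refine (norm_sum_le _ _).trans ?_
    calc ∑ n ∈ range k, ‖y n‖ ≤ ∑ n ∈ range k, (1 : ℝ) := Finset.sum_le_sum fun n _ => hy n
      _ = k := by simp
  refine (norm_add_le _ _).trans ?_
  have h4 := h3 t z hz
  have h5 := h3 (L - t) (fun n => z (t + (N - L + n))) fun n => hz _
  have h6 : ((L - t : ℕ) : ℝ) = L - t := Nat.cast_sub ht
  rw [h6] at h5
  linarith

/-- restriction to a progression with a large sum -/
lemma exists_prog (u : ℕ → ℝ) (N Q M : ℕ) (hN : 1 ≤ N) (hM : 1 ≤ M) (K : ℝ) (hK : 2 ≤ K)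
    (hQM : ((Q * M : ℕ) : ℝ) ≤ N / (4 * K)) (h : (N : ℝ) / K ≤ ‖∑ n ∈ range N, ee (u n)‖) :
    ∃ s : ℕ, s + Q * M ≤ N ∧ (M : ℝ) / (2 * K) ≤ ‖∑ m ∈ range M, ee (u (s + Q * m))‖ := by
  have hK0 : 0 < K := by linarith
  have hN0 : (0 : ℝ) < N := by exact_mod_cast hN
  have hM0 : (0 : ℝ) < M := by exact_mod_cast hM
  have hQMN : Q * M ≤ N := by
    have h1 : (N : ℝ) / (4 * K) ≤ N := div_le_self hN0.le (by linarith)
    exact_mod_cast hQM.trans h1
  by_contra hcon
  push Not at hcon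
  have h1 : ‖∑ s ∈ range (N - Q * M), ∑ m ∈ range M, ee (u (s + Q * m))‖ ≤ N * (M / (2 * K)) := by
    refine (norm_sum_le _ _).trans ?_
    calc ∑ s ∈ range (N - Q * M), ‖∑ m ∈ range M, ee (u (s + Q * m))‖
        ≤ ∑ s ∈ range (N - Q * M), (M : ℝ) / (2 * K) := by
          refine Finset.sum_le_sum fun s hs => ?_
          rw [Finset.mem_range] at hs
          exact (hcon s (by omega)).le
      _ = ((N - Q * M : ℕ) : ℝ) * (M / (2 * K)) := by
          rw [Finset.sum_const, nsmul_eq_mul, Finset.card_range]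
      _ ≤ N * (M / (2 * K)) := by
          have : ((N - Q * M : ℕ) : ℝ) ≤ N := by exact_mod_cast Nat.sub_le _ _
          gcongr
  have h2 : ‖(M : ℂ) * ∑ n ∈ range N, ee (u n) -
      ∑ s ∈ range (N - Q * M), ∑ m ∈ range M, ee (u (s + Q * m))‖ ≤ M * ((Q * M : ℕ) : ℝ) := by
    rw [Finset.sum_comm]
    have e1 : (M : ℂ) * ∑ n ∈ range N, ee (u n) = ∑ m ∈ range M, ∑ n ∈ range N, ee (u n) := by
      rw [Finset.sum_const, Finset.card_range, nsmul_eq_mul]
    rw [e1, ← Finset.sum_sub_distrib]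
    refine (norm_sum_le _ _).trans ?_
    calc ∑ m ∈ range M, ‖∑ n ∈ range N, ee (u n) - ∑ s ∈ range (N - Q * M), ee (u (s + Q * m))‖
        ≤ ∑ m ∈ range M, ((Q * M : ℕ) : ℝ) := by
          refine Finset.sum_le_sum fun m hm => ?_
          rw [Finset.mem_range] at hm
          exact shift_sum (fun n => ee (u n)) (fun n => (norm_ee _).le) N (Q * M) (Q * m) hQMN
            (Nat.mul_le_mul_left Q hm.le)
      _ = M * ((Q * M : ℕ) : ℝ) := by rw [Finset.sum_const, nsmul_eq_mul, Finset.card_range]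
  have h3 : ‖(M : ℂ) * ∑ n ∈ range N, ee (u n)‖ = M * ‖∑ n ∈ range N, ee (u n)‖ := by
    rw [norm_mul, Complex.norm_natCast]
  have h4 : (M : ℝ) * ‖∑ n ∈ range N, ee (u n)‖ ≤ M * ((Q * M : ℕ) : ℝ) + N * (M / (2 * K)) := by
    rw [← h3]
    have h5 := norm_add_le ((M : ℂ) * ∑ n ∈ range N, ee (u n) -
      ∑ s ∈ range (N - Q * M), ∑ m ∈ range M, ee (u (s + Q * m)))
      (∑ s ∈ range (N - Q * M), ∑ m ∈ range M, ee (u (s + Q * m)))
    rw [sub_add_cancel] at h5
    linarith
  have h5 : (M : ℝ) * (N / K) ≤ M * (N / (4 * K)) + M * (N / (2 * K)) := by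
    calc (M : ℝ) * (N / K) ≤ M * ‖∑ n ∈ range N, ee (u n)‖ := by gcongr
      _ ≤ M * ((Q * M : ℕ) : ℝ) + N * (M / (2 * K)) := h4
      _ ≤ M * (N / (4 * K)) + N * (M / (2 * K)) := by gcongr
      _ = M * (N / (4 * K)) + M * (N / (2 * K)) := by ring
  rw [← mul_add] at h5
  have h6 := le_of_mul_le_mul_left h5 hM0
  have h7 : (N : ℝ) / (4 * K) + N / (2 * K) = 3 / 4 * (N / K) := by
    field_simp
    norm_num
  rw [h7] at h6
  have h8 : 0 < (N : ℝ) / K := by positivity
  linarith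

/-- removal of the leading term on a progression -/
theorem restrict (D a : ℕ) (f : ℝ[X]) (N : ℕ) (K : ℝ) (hK : 2 ≤ K) (Q : ℕ) (hQ1 : 1 ≤ Q)
    (hQ : (Q : ℝ) ≤ K ^ a) (b : ℤ)
    (hb : |Q * f.coeff (D + 1) - b| ≤ K ^ a / (N : ℝ) ^ (D + 1))
    (hN : K ^ (2 * a + D + 7) ≤ N) (h : (N : ℝ) / K ≤ ‖∑ n ∈ range N, ee (f.eval (n : ℝ))‖) :
    ∃ s M : ℕ, 1 ≤ M ∧ s ≤ N ∧ (M : ℝ) ≤ N ∧ (N : ℝ) ≤ M * K ^ (2 * a + D + 8) ∧
      (M : ℝ) / (4 * K) ≤ ‖∑ m ∈ range M, ee ((f.erase (D + 1)).eval ((s : ℝ) + Q * m))‖ := by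
  have hK0 : 0 < K := by linarith
  have hK1 : 1 ≤ K := by linarith
  have hmono : ∀ m n : ℕ, m ≤ n → K ^ m ≤ K ^ n := fun m n hmn => pow_le_pow_right₀ hK1 hmn
  have h2K : ∀ n : ℕ, (2 : ℝ) ^ n ≤ K ^ n := two_pow_bound K hK
  have hQ0 : (0 : ℝ) < Q := by exact_mod_cast hQ1
  have hNr : (0 : ℝ) < N := lt_of_lt_of_le (by positivity) hN
  have hN1 : 1 ≤ N := by exact_mod_cast hNr
  set C₂ : ℕ := a + D + 7 with hC₂
  set x : ℝ := N / (Q * K ^ C₂) with hx
  have hx1 : 1 ≤ x := by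
    rw [hx, le_div_iff₀ (by positivity), one_mul]
    calc (Q : ℝ) * K ^ C₂ ≤ K ^ a * K ^ C₂ := by gcongr
      _ = K ^ (2 * a + D + 7) := by
        rw [← pow_add, hC₂]
        congr 1
        ring
      _ ≤ N := hN
  set M : ℕ := ⌊x⌋₊ with hM
  have hM1 : 1 ≤ M := Nat.le_floor (by exact_mod_cast hx1)
  have hM0 : (0 : ℝ) < M := by exact_mod_cast hM1
  have hMx : (M : ℝ) ≤ x := Nat.floor_le (by linarith)
  have hxM : x ≤ 2 * M := by
    have h1 := Nat.lt_floor_add_one x
    have h2 : (1 : ℝ) ≤ M := by exact_mod_cast hM1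
    rw [← hM] at h1
    linarith
  have hQMN : (Q : ℝ) * M ≤ N / K ^ C₂ := by
    calc (Q : ℝ) * M ≤ Q * x := by gcongr
      _ = N / K ^ C₂ := by
        rw [hx]
        field_simp
  have hMN : (M : ℝ) ≤ N / K ^ C₂ := by
    refine le_trans ?_ hQMN
    have : (1 : ℝ) ≤ Q := by exact_mod_cast hQ1
    nlinarith
  have h4K : 4 * K ≤ K ^ C₂ := by
    calc 4 * K = 2 ^ 2 * K := by norm_num
      _ ≤ K ^ 2 * K := by
        have := h2K 2
        gcongr
      _ = K ^ 3 := by ring
      _ ≤ K ^ C₂ := hmono _ _ (by omega)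
  obtain ⟨s, hs1, hs2⟩ := exists_prog (fun n => f.eval (n : ℝ)) N Q M hN1 hM1 K hK (by
    push_cast
    refine hQMN.trans ?_
    gcongr) h
  have hsN : s ≤ N := le_trans (Nat.le_add_right _ _) hs1
  refine ⟨s, M, hM1, hsN, ?_, ?_, ?_⟩
  · refine hMN.trans (div_le_self hNr.le ?_)
    exact one_le_pow₀ hK1
  · have h1 : (N : ℝ) = x * (Q * K ^ C₂) := by
      rw [hx]
      field_simp
    rw [h1]
    calc x * (Q * K ^ C₂) ≤ (2 * M) * (K ^ a * K ^ C₂) := by gcongr
      _ = M * (2 * (K ^ a * K ^ C₂)) := by ring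
      _ ≤ M * (K * (K ^ a * K ^ C₂)) := by gcongr
      _ = M * K ^ (2 * a + D + 8) := by
        rw [← pow_add, hC₂]
        ring
  · -- remove the leading term
    set A : ℝ := f.coeff (D + 1) with hA
    set g : ℝ[X] := f.erase (D + 1) with hg
    set θ : ℝ := Q * A - b with hθ
    -- the integers `w m`
    set w : ℕ → ℕ := fun m => m * ∑ i ∈ range (D + 1), (s + Q * m) ^ i * s ^ (D + 1 - 1 - i) with hw
    have hwe : ∀ m : ℕ, ((s : ℝ) + Q * m) ^ (D + 1) = (s : ℝ) ^ (D + 1) + Q * (w m : ℝ) := by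
      intro m
      have h1 := (Commute.all ((s : ℝ) + Q * m) (s : ℝ)).geom_sum₂_mul (D + 1)
      have h2 : (w m : ℝ) = m * ∑ i ∈ range (D + 1), ((s : ℝ) + Q * m) ^ i * (s : ℝ) ^ (D + 1 - 1 - i) := by
        rw [hw]
        push_cast
        rfl
      rw [h2]
      have h3 : (s : ℝ) + Q * m - s = Q * m := by ring
      rw [h3] at h1
      linear_combination -h1
    have hwb : ∀ m ∈ range M, (w m : ℝ) ≤ (D + 1 : ℕ) * (N : ℝ) ^ D * M := by
      intro m hm
      rw [Finset.mem_range] at hm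
      have h1 : w m ≤ M * ∑ i ∈ range (D + 1), N ^ D := by
        rw [hw]
        refine Nat.mul_le_mul hm.le (Finset.sum_le_sum fun i hi => ?_)
        rw [Finset.mem_range] at hi
        have h2 : s + Q * m ≤ N := le_trans (Nat.add_le_add_left (Nat.mul_le_mul_left Q hm.le) s) hs1
        calc (s + Q * m) ^ i * s ^ (D + 1 - 1 - i) ≤ N ^ i * N ^ (D + 1 - 1 - i) :=
              Nat.mul_le_mul (Nat.pow_le_pow_left h2 _) (Nat.pow_le_pow_left hsN _)
          _ = N ^ D := by
            rw [← pow_add]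
            congr 1
            omega
      rw [Finset.sum_const, Finset.card_range, smul_eq_mul] at h1
      have h2 : (w m : ℝ) ≤ M * ((D + 1 : ℕ) * (N : ℝ) ^ D) := by exact_mod_cast h1
      linarith
    have hev : ∀ m : ℕ, ee (f.eval (((s + Q * m : ℕ) : ℝ))) =
        ee (A * (s : ℝ) ^ (D + 1)) * (ee (θ * w m) * ee (g.eval ((s : ℝ) + Q * m))) := by
      intro m
      have e1 : f.eval (((s + Q * m : ℕ) : ℝ)) =
          (A * (s : ℝ) ^ (D + 1) + (θ * w m + g.eval ((s : ℝ) + Q * m))) + ((b * w m : ℤ) : ℝ) := by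
        have h1 : f = monomial (D + 1) A + g := (monomial_add_erase f (D + 1)).symm
        conv_lhs => rw [h1]
        rw [eval_add, eval_monomial]
        push_cast
        rw [hwe m, hθ]
        ring
      rw [e1, ee_add_int, ee_add, ee_add]
    have hs3 : (M : ℝ) / (2 * K) ≤
        ‖∑ m ∈ range M, ee (θ * w m) * ee (g.eval ((s : ℝ) + Q * m))‖ := by
      refine hs2.trans (le_of_eq ?_)
      have h1 : ∀ m ∈ range M, ee ((fun n : ℕ => f.eval (n : ℝ)) (s + Q * m)) =
          ee (A * (s : ℝ) ^ (D + 1)) * (ee (θ * w m) * ee (g.eval ((s : ℝ) + Q * m))) :=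
        fun m _ => hev m
      rw [Finset.sum_congr rfl h1, ← Finset.mul_sum, norm_mul, norm_ee, one_mul]
    have hdiff : ‖∑ m ∈ range M, ee (θ * w m) * ee (g.eval ((s : ℝ) + Q * m)) -
        ∑ m ∈ range M, ee (g.eval ((s : ℝ) + Q * m))‖ ≤ M * (1 / (4 * K)) := by
      rw [← Finset.sum_sub_distrib]
      refine (norm_sum_le _ _).trans ?_
      calc ∑ m ∈ range M, ‖ee (θ * w m) * ee (g.eval ((s : ℝ) + Q * m)) -
            ee (g.eval ((s : ℝ) + Q * m))‖ ≤ ∑ m ∈ range M, 1 / (4 * K) := by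
            refine Finset.sum_le_sum fun m hm => ?_
            have e1 : ee (θ * w m) * ee (g.eval ((s : ℝ) + Q * m)) -
                ee (g.eval ((s : ℝ) + Q * m)) =
                (ee (θ * w m) - 1) * ee (g.eval ((s : ℝ) + Q * m)) := by ring
            rw [e1, norm_mul, norm_ee, mul_one]
            refine (norm_ee_sub_one _).trans ?_
            rw [abs_mul, Nat.abs_cast]
            have h1 : |θ| * (w m : ℝ) ≤ (K ^ a / (N : ℝ) ^ (D + 1)) *
                ((D + 1 : ℕ) * (N : ℝ) ^ D * M) := by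
              have := hwb m hm
              gcongr
            have h2 : (K ^ a / (N : ℝ) ^ (D + 1)) * ((D + 1 : ℕ) * (N : ℝ) ^ D * M) =
                K ^ a * (D + 1 : ℕ) * (M / N) := by
              rw [pow_succ]
              field_simp
            have h3 : (M : ℝ) / N ≤ 1 / K ^ C₂ := by
              rw [div_le_div_iff₀ hNr (by positivity)]
              rw [le_div_iff₀ (by positivity)] at hMN
              linarith
            have h4 : |θ| * (w m : ℝ) ≤ K ^ a * K ^ (D + 1) * (1 / K ^ C₂) := by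
              refine h1.trans ?_
              rw [h2]
              have := pow_bound K hK (D + 1)
              gcongr
            have h5 : K ^ C₂ = K ^ a * K ^ (D + 1) * K ^ 6 := by
              rw [← pow_add, ← pow_add, hC₂]
              congr 1
            have h6 : K ^ a * K ^ (D + 1) * (1 / K ^ C₂) = 1 / K ^ 6 := by
              rw [h5]
              field_simp
            rw [h6] at h4
            calc 2 * Real.pi * (|θ| * (w m : ℝ)) ≤ 2 * 4 * (1 / K ^ 6) := by
                  have := Real.pi_le_four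
                  have := Real.pi_pos
                  gcongr
              _ ≤ 1 / (4 * K) := by
                rw [mul_one_div, div_le_div_iff₀ (by positivity) (by positivity)]
                calc 2 * 4 * (4 * K) = 2 ^ 5 * K := by ring
                  _ ≤ K ^ 5 * K := by
                    have := h2K 5
                    gcongr
                  _ = 1 * K ^ 6 := by ring
        _ = M * (1 / (4 * K)) := by rw [Finset.sum_const, nsmul_eq_mul, Finset.card_range]
    have h1 := norm_sub_norm_le (∑ m ∈ range M, ee (θ * w m) * ee (g.eval ((s : ℝ) + Q * m)))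
      (∑ m ∈ range M, ee (g.eval ((s : ℝ) + Q * m)))
    have h2 : (M : ℝ) / (2 * K) - M * (1 / (4 * K)) = M / (4 * K) := by
      field_simp
      norm_num
    linarith

end Pool.Agent.Helper9.WI
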